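import Pool.Agent.H18.INS.Main

set_option autoImplicit false

namespace Pool.Agent.Results.MP_ace675_co.UnboundedGap

open SimpleGraph

/-- `G` is `q`-Ramsey for `H`: for every colouring of the edges of `G` with `q` colours some colour
class contains a copy of `H`. -/
def IsRamsey {V W : Type} (q : ℕ) (H : SimpleGraph V) (G : SimpleGraph W) : Prop :=
  ∀ c : G.EdgeLabeling (Fin q), ∃ i : Fin q, H.IsContained (c.labelGraph i)

/-- `G` is minimal `q`-Ramsey for `H`: it is `q`-Ramsey and no proper subgraph is. -/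
def IsMinimalRamsey {V W : Type} (q : ℕ) (H : SimpleGraph V) (G : SimpleGraph W) : Prop :=
  IsRamsey q H G ∧ ∀ G' : G.Subgraph, G' ≠ ⊤ → ¬ IsRamsey q H G'.coe

open scoped Classical in
/-- The least minimum degree of a minimal `q`-Ramsey graph for `H`. -/
noncomputable def s {V : Type} (q : ℕ) (H : SimpleGraph V) : ℕ :=
  sInf {e : ℕ | ∃ (m : ℕ) (G : SimpleGraph (Fin m)), IsMinimalRamsey q H G ∧ G.minDegree = e}

open scoped Classical in
/-- For `q = 2` and every minimum degree `d ≥ 1` the conjecture `s₂(H) = 2 δ(H) - 1` fails for a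
triangle-free `H`, and no function of `q` and `δ(H)` bounds `s_q(H)`. -/
theorem result (q d t : ℕ) (hq : 2 ≤ q) (hd : 1 ≤ d) :
    ∃ (n : ℕ) (H : SimpleGraph (Fin n)), H.CliqueFree 3 ∧ H.minDegree = d ∧ t ≤ s q H :=
  Pool.Agent.H18.INS.main_fin q d t hq hd

end Pool.Agent.Results.MP_ace675_co.UnboundedGap
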